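import Pool.Agent.Work.MP_3615d2_al.StmtBridge
import Pool.Agent.Work.MP_3615d2_al.Mo.Final
import Pool.Agent.Work.MP_3615d2_al.P1.SpehAll

/-! # MP_3615d2_al: no Weil representation quotients of Speh representations

`E / F` a quadratic extension of nonarchimedean local fields of characteristic not two, `V` and `W`
nondegenerate skew-Hermitian spaces of dimension `m`, `X = V ⊕ W`. Every `U(X)`-equivariant linear
map from an irreducible quotient of `πν^(1/2) × πν^(-1/2)` to the Weil representation `ω_{X,ψ,μ}`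
is zero. -/

open Matrix
open scoped TensorProduct

namespace Pool.Agent.Results.MP_3615d2_al.SpehWeilAll

open SpW (IsSkew bm IsSmoothRep IsIrrRep)
open SpS

/-- `Hom_{U(V ⊕ W)}(Sp(π,2), ω_{V ⊕ W,ψ,μ}) = 0` for all `m` and all `m`-dimensional `V`, `W`. -/
theorem result
    (F E : Type) [NontriviallyNormedField F] [IsUltrametricDist F] [ProperSpace F]
    [NontriviallyNormedField E] [NormedAlgebra F E] [IsUltrametricDist E] [ProperSpace E]
    [MeasurableSpace E] [BorelSpace E] (σ : E ≃ₐ[F] E)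
    (h2 : (2 : F) ≠ 0) (hrank : Module.finrank F E = 2) (hσ : ∃ x, σ x ≠ x)
    (m : ℕ) (hm : 0 < m)
    (HV HW : Matrix (Fin m) (Fin m) E) (hV : IsSkew σ HV) (hW : IsSkew σ HW)
    (ψ : AddChar F Circle) (hψ : Continuous ψ) (hψ1 : ψ ≠ 1)
    (μ : E → ℂ) (hμ : ConjSympl F μ)
    (S : Type) [AddCommGroup S] [Module ℂ S] (ρ : (Fin (2 * m) → E) → Module.End ℂ S)
    (ω : U σ (bm HV 0 0 HW) →* Module.End ℂ S) (hω : IsWeil σ (bm HV 0 0 HW) (fun x => ψ x) μ ρ ω)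
    (V₀ : Type) [AddCommGroup V₀] [Module ℂ V₀] (π : GL (Fin m) E →* Module.End ℂ V₀)
    (hπ : IsSmoothRep π) (hirr : IsIrrRep π) (hc : IsCusp π)
    (hu : UnitScalars (GeneralLinearGroup.scalar (Fin m)) π)
    (W₀ : Type) [AddCommGroup W₀] [Module ℂ W₀] (τ : GL (Fin (2 * m)) E →* Module.End ℂ W₀)
    (hτ : IsIrrRep τ) (q : (GL (Fin (2 * m)) E → V₀ ⊗[ℂ] V₀) → W₀) (hq : IsSpehQuot π τ q)
    (T : W₀ →ₗ[ℂ] S) (hT : ∀ (g : U σ (bm HV 0 0 HW)) w, T (τ g w) = ω g (T w)) : T = 0 := by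
  obtain ⟨δ, d, hqd⟩ := SpW.quadDatum_exists F E σ h2 hrank hσ
  obtain ⟨ψE, hψE, hψE1⟩ : ∃ ψE : AddChar E Circle, Continuous ψE ∧ ψE ≠ 1 := by
    obtain ⟨x, hx⟩ := DFunLike.ne_iff.1 hψ1
    refine ⟨ψ.compAddMonoidHom (Algebra.trace F E).toAddMonoidHom,
      hψ.comp (SpW.trace_continuous hqd), DFunLike.ne_iff.2 ⟨algebraMap F E (2⁻¹ * x), ?_⟩⟩
    have h3 : Algebra.trace F E (algebraMap F E (2⁻¹ * x)) = x := by
      rw [Algebra.trace_algebraMap, hrank, two_nsmul, ← two_mul, mul_inv_cancel_left₀ h2]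
    show ψ (Algebra.trace F E (algebraMap F E (2⁻¹ * x))) ≠ 1
    rw [h3]
    exact hx
  exact SpW.speh_weil_all hqd hm hψ hψ1 (conj_of hμ) hψE hψE1 hπ hirr (cusp_of hc) hu
    (SpW.Mo.moHom hm hqd hπ hirr (cusp_of hc) hu) hτ (qU hq)
    (qU_surj hq) (qU_equiv hq) (SpW.isSkew_bm hV hW) (weil_of hμ hω) T
    (fun g w => hT (Subgroup.inclusion (U_eq σ _).ge g) w)

end Pool.Agent.Results.MP_3615d2_al.SpehWeilAll
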